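import Mathlib
import Pool.Agent.N432.Flat3

/-!
Sizes of flat maximal antichains just below the top level.
-/

set_option autoImplicit false

namespace Pool.Agent.Results.MP_7d5f0f_co.AllFormsRealized

/-- `S(n,l)`: the sizes of the maximal antichains of the Boolean lattice of all subsets of an
`n`-element set, all of whose members have exactly `l` or `l + 1` elements. -/
def S (n l : ℕ) : Set ℕ :=
  {k | ∃ A : Finset (Finset (Fin n)),
    IsAntichain (· ⊆ ·) (A : Set (Finset (Fin n))) ∧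
    (∀ X : Finset (Fin n), X ∉ A → ∃ Y ∈ A, X ⊆ Y ∨ Y ⊆ X) ∧
    (∀ X ∈ A, X.card = l ∨ X.card = l + 1) ∧ A.card = k}

/-- `T(n,l) = C(n,l+1) - (n-l-1) ⌈(n-l)/2⌉`. -/
def T (n l : ℕ) : ℤ :=
  (n.choose (l + 1) : ℤ) - ((n : ℤ) - l - 1) * ⌈((n : ℚ) - l) / 2⌉

/-- The integer `m` has form (G) for `(n,l)`. -/
def FormG (n l : ℕ) (m : ℤ) : Prop :=
  ∃ t a b c : ℕ, 1 ≤ t ∧ (t : ℤ) ≤ (n : ℤ) - l + 1 ∧ b ≤ a ∧ c ≤ b ∧ 1 ≤ a + b ∧ a + b ≤ t ∧
    m = (n.choose (l + 1) : ℤ) - ((n : ℤ) - l - 1) * t + a.choose 2 + b.choose 2 + c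

theorem ceil_half (D : ℕ) : ⌈((D : ℚ) + 1) / 2⌉ = ((D / 2 : ℕ) : ℤ) + 1 := by
  obtain ⟨q, r, hq, hr⟩ : ∃ q r : ℕ, D = 2 * q + r ∧ r ≤ 1 := ⟨D / 2, D % 2, by omega, by omega⟩
  have h0 : D / 2 = q := by omega
  rw [h0, Int.ceil_eq_iff]
  have h : (D : ℚ) = 2 * (q : ℚ) + (r : ℚ) := by
    rw [hq]
    push_cast
    ring
  have h2 : (r : ℚ) ≤ 1 := by exact_mod_cast hr
  have h3 : (0 : ℚ) ≤ (r : ℚ) := by positivity
  rw [h]
  push_cast
  constructor <;> linarith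

/-- For every `l ≥ 2` (in particular for `l ∈ {2, 3}`) and every `n` with `l ≤ ⌈n/2⌉`, every integer
`m` of form (G) with `T(n,l) < m < C(n,l+1)` is the size of a maximal antichain of `B_n` whose members
all have `l` or `l + 1` elements. -/
theorem result : ∀ l n : ℕ, 2 ≤ l → (l : ℤ) ≤ ⌈(n : ℚ) / 2⌉ → ∀ m : ℤ, FormG n l m → T n l < m →
    m < (n.choose (l + 1) : ℤ) → ∃ k ∈ S n l, (k : ℤ) = m := by
  intro l n hl hln m hG hT hm
  have hn : 2 * l ≤ n + 1 := by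
    have h1 : (l : ℤ) - 1 < (n : ℚ) / 2 := by
      have := Int.le_ceil_iff.1 hln
      exact_mod_cast this
    have h2 : ((2 * l : ℕ) : ℚ) < ((n + 2 : ℕ) : ℚ) := by
      push_cast
      push_cast at h1
      linarith
    have h3 : 2 * l < n + 2 := by exact_mod_cast h2
    omega
  obtain ⟨D, hD⟩ : ∃ D, n = D + l + 1 := ⟨n - l - 1, by omega⟩
  subst hD
  obtain ⟨t, a, b, c, ht1, ht, hba, hcb, h1, hab, hmW⟩ := hG
  have e1 : ((D + l + 1 : ℕ) : ℤ) - l - 1 = D := by push_cast; ring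
  have e2 : (((D + l + 1 : ℕ) : ℚ) - l) / 2 = ((D : ℚ) + 1) / 2 := by push_cast; ring
  unfold T at hT
  rw [e1, e2, ceil_half] at hT
  rw [e1] at hmW
  have ht' : t ≤ D + 2 := by
    push_cast at ht
    omega
  obtain ⟨δ, hδ⟩ : ∃ δ : ℕ, (δ : ℤ) = ((D + l + 1).choose (l + 1) : ℤ) - m :=
    ⟨(((D + l + 1).choose (l + 1) : ℤ) - m).toNat, Int.toNat_of_nonneg (by omega)⟩
  have hδ1 : δ + (a.choose 2 + b.choose 2 + c) = D * t := by
    have : ((δ + (a.choose 2 + b.choose 2 + c) : ℕ) : ℤ) = ((D * t : ℕ) : ℤ) := by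
      push_cast
      rw [hδ, hmW]
      ring
    exact_mod_cast this
  have hδ2 : δ < D * (D / 2 + 1) := by
    have : ((δ : ℕ) : ℤ) < ((D * (D / 2 + 1) : ℕ) : ℤ) := by
      rw [hδ]
      push_cast
      push_cast at hT
      linarith
    exact_mod_cast this
  have hδ0 : 0 < δ := by
    have : (0 : ℤ) < δ := by rw [hδ]; linarith
    exact_mod_cast this
  have hD2 : 2 ≤ D := by
    by_contra hcon
    have : D = 0 ∨ D = 1 := by omega
    rcases this with rfl | rfl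
    · simp at hδ2
    · simp at hδ2
      omega
  have hR := Pool.Agent.N432.Flat.key D t a b c δ hD2 ht' hba hcb h1 hab hδ1 hδ2
  have hR2 := Pool.Agent.N432.Flat.lift_iter (by omega) hR (l - 2)
  have e3 : D + 3 + (l - 2) = D + l + 1 := by omega
  have e4 : 2 + (l - 2) = l := by omega
  rw [e3, e4] at hR2
  obtain ⟨A, hA1, hA2, hA3, hA4, hA5⟩ := Pool.Agent.N432.Flat.antichain_of_R (by omega) hR2
  obtain ⟨A', hB1, hB2, hB3, hB4⟩ := Pool.Agent.N432.Flat.transfer ⟨A, hA1, hA2, hA3, hA4, rfl⟩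
  refine ⟨A.card, ⟨A', hB1, hB2, hB3, hB4⟩, ?_⟩
  have : ((A.card + δ : ℕ) : ℤ) = ((D + l + 1).choose (l + 1) : ℤ) := by exact_mod_cast hA5
  push_cast at this
  rw [hδ] at this
  linarith

end Pool.Agent.Results.MP_7d5f0f_co.AllFormsRealized
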